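import Pool.Agent.W443.J6.Stms2
import Pool.Agent.W22.J6.ED
import Pool.Agent.W410.J6.PSA

/-! Project J6 (helper443), task J6-PSC: positive directions with `q ≥ 1`. -/

set_option autoImplicit false

open MvPolynomial Pool.Agent.H938R2.JC Pool.Agent.W443.J5 Pool.Agent.W443.J6
open Pool.Agent.W410.J6.PSA (sh sh_zero sh_one term mono_ne mono_self coeff_part)

namespace Pool.Agent.W577.J6

universe u

variable {k : Type u} [Field k]

lemma key {f : MvPolynomial (Fin 2) k} {P Q : ℕ} (hL : Low 1 0 P Q f) (hU : Upp 1 0 P Q f)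
    {m : Fin 2 →₀ ℕ} (hm : coeff m f ≠ 0) : m 0 < P ∨ (m 0 = P ∧ m 1 = Q) := by
  have h1 := hL.2 m hm
  have h2 := hU.2 m hm
  omega

lemma key' {f : MvPolynomial (Fin 2) k} {P Q : ℕ} (hL : Low 1 0 P Q f) (hU : Upp 1 0 P Q f)
    {m : Fin 2 →₀ ℕ} (hm : coeff m f ≠ 0) : m 0 < P ∨ m = e P Q := by
  rcases key hL hU hm with h | h
  · exact Or.inl h
  · right
    rw [ext_iff', e_zero, e_one]
    exact h

/-- the shape of the form -/
lemma form_eq (κ c : k) (N i j : ℕ) : (C κ * X 1 ^ j * (X 0 + C c * X 1 ^ N) ^ i :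
    MvPolynomial (Fin 2) k) = aeval (sh (-c) N) (monomial (e i j) κ) := by
  rw [term, map_mul, map_mul, map_pow, map_pow, aeval_X, aeval_X, sh_zero, sh_one, aeval_C,
    algebraMap_eq]
  rw [C_neg]
  ring

lemma fin_eq {f : MvPolynomial (Fin 2) k} {P Q : ℕ} (hL : Low 1 0 P Q f) (hU : Upp 1 0 P Q f)
    {N i j : ℕ} {κ c : k} (hκ : κ ≠ 0) {D : ℤ} (hD : D = N * P + Q)
    (h : part N 1 D f = C κ * X 1 ^ j * (X 0 + C c * X 1 ^ N) ^ i) : i = P ∧ j = Q := by
  rw [form_eq] at h
  have h1 : coeff (e i j) (part N 1 D f) ≠ 0 := by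
    rw [h, mono_self]
    exact hκ
  rw [coeff_part] at h1
  have h2 : (N : ℤ) * ((e i j) 0 : ℕ) + 1 * ((e i j) 1 : ℕ) = D := by
    by_contra hne
    exact h1 (if_neg hne)
  rw [if_pos h2] at h1
  rw [e_zero, e_one] at h2
  have h3 := key hL hU h1
  rw [e_zero, e_one] at h3
  have h4 : coeff (e P Q) (part N 1 D f) ≠ 0 := by
    rw [coeff_part, if_pos]
    · exact hL.1
    · rw [e_zero, e_one, hD]
      ring
  rw [h] at h4
  have h5 := (mono_ne h4).2
  rw [e_zero, e_zero] at h5
  have hiP : i = P := by omega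
  refine ⟨hiP, ?_⟩
  rw [hiP, hD] at h2
  omega

/-- the conclusion -/
def Con (a b p q : ℕ) (k : Type u) [Field k] : Prop :=
  ∃ f' g' : MvPolynomial (Fin 2) k, Bad f' g' ∧ Sim a b f' g' ∧ Sim b a g' f' ∧
    Upp 1 0 (a * q) (a * p) f'

/-- the induction hypothesis -/
def HH (a b p q n : ℕ) (k : Type u) [Field k] : Prop :=
  ∀ f g : MvPolynomial (Fin 2) k, Bad f g → Sim a b f g → Sim b a g f →
    Low 1 0 (a * p) (a * q) f → Upp 1 0 (a * p) (a * q) f → Top n 1 (n * (a * p) + a * q) f →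
    Con a b p q k

lemma base [CharZero k] (hSIM : S_SIM.{u}) {a b p q : ℕ} (ha : 2 ≤ a) (hb : 2 ≤ b)
    (hab : Nat.Coprime a b) (hq : 1 ≤ q) : HH a b p q 0 k := by
  intro f g hB hs _ hL hU hT
  have hB' : Bad (sw f) (sw g) := by
    obtain ⟨⟨c, hc, hJ⟩, hG⟩ := hB
    refine ⟨⟨-c, neg_ne_zero.2 hc, ?_⟩, fun h => hG (Good.of_equiv sw h)⟩
    rw [J_sw, hJ]
    simp [sw]
  have hT0 : Top 0 1 (a * q) f := by
    have := hT
    simpa using this
  obtain ⟨n, hn, hn1, hTg⟩ := hs.1 0 1 (a * q) (Or.inr one_pos) hT0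
  have hnq : n = q := by
    have ha0 : (a : ℤ) ≠ 0 := by positivity
    exact (mul_left_cancel₀ ha0 hn1).symm
  rw [hnq] at hTg
  have hsw : ∀ {h : MvPolynomial (Fin 2) k} {d : ℤ}, Top 0 1 d h → Top 1 0 d (sw h) := by
    intro h d hd
    constructor
    · intro m hm
      rw [eq_e m, coeff_sw] at hm
      have h1 := hd.1 _ hm
      rw [e_zero, e_one] at h1
      omega
    · obtain ⟨m, hm, hmd⟩ := hd.2
      refine ⟨e (m 1) (m 0), ?_, ?_⟩
      · rw [coeff_sw, ← eq_e]
        exact hm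
      · rw [e_zero, e_one]
        omega
  obtain ⟨h1, h2⟩ := hSIM k (sw f) (sw g) hB' a b (by omega) (by omega) hab 1 0 q
    (Or.inl one_pos) (hsw hT0) (hsw hTg)
  refine ⟨sw f, sw g, hB', h1, h2, ?_, ?_⟩
  · rw [coeff_sw]
    exact hL.1
  · intro m hm
    have hm' := hm
    rw [eq_e m, coeff_sw] at hm'
    have h3 := key hL hU hm'
    have h4 := hT0.1 _ hm'
    rw [e_zero, e_one] at h3 h4
    push_cast at *
    omega

lemma caseI [IsAlgClosed k] [CharZero k] (hDH : S_DH.{u}) (hCL1 : S_CL1.{u}) (hCL3 : S_CL3.{u})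
    {a b p q n : ℕ} (ha : 2 ≤ a) (hp : 1 ≤ p) (hq : 1 ≤ q) (ih : HH a b p q n k)
    {f g : MvPolynomial (Fin 2) k} (hB : Bad f g) (hs1 : Sim a b f g) (hs2 : Sim b a g f)
    (hL : Low 1 0 (a * p) (a * q) f) (hU : Upp 1 0 (a * p) (a * q) f)
    (hT : ∀ m, coeff m f ≠ 0 → (n + 1) * m 0 + m 1 ≤ (n + 1) * (a * p) + a * q)
    (hone : ∀ m, coeff m f ≠ 0 → (n + 1) * m 0 + m 1 = (n + 1) * (a * p) + a * q →
      m = e (a * p) (a * q)) : Con a b p q k := by
  classical
  have hP0 : 0 < a * p := by positivity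
  have hQ0 : 0 < a * q := by positivity
  by_cases h : ∀ m, coeff m f ≠ 0 → n * m 0 + m 1 ≤ n * (a * p) + a * q
  · refine ih f g hB hs1 hs2 hL hU ⟨?_, e (a * p) (a * q), hL.1, by simp⟩
    intro m hm
    have h1 := h m hm
    have h2 : ((n * m 0 + m 1 : ℕ) : ℤ) ≤ ((n * (a * p) + a * q : ℕ) : ℤ) := by exact_mod_cast h1
    push_cast at h2
    linarith
  · exfalso
    push Not at h
    obtain ⟨m, hm, hm1⟩ := h
    generalize hP : a * p = P at *
    generalize hQ : a * q = Q at *
    have hmP : m 0 < P := by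
      rcases key' hL hU hm with h1 | h1
      · exact h1
      · rw [h1, e_zero, e_one] at hm1
        exact absurd hm1 (lt_irrefl _)
    have hmQ : n * (P - m 0) < m 1 - Q := by
      have e1 : n * P = n * m 0 + n * (P - m 0) := by
        rw [← mul_add]
        congr 1
        omega
      omega
    let T : Finset (Fin 2 →₀ ℕ) := f.support.filter fun m => Q < m 1 ∧ m 0 < P
    have hmT : m ∈ T := Finset.mem_filter.2 ⟨mem_support_iff.2 hm, by omega, hmP⟩
    obtain ⟨x, hxT, hmin⟩ := Pool.Agent.W22.J6ED.slope T ⟨m, hmT⟩ (fun m => P - m 0)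
      (fun m => m 1 - Q) (fun y hy => by
        have := (Finset.mem_filter.1 hy).2
        omega)
    obtain ⟨hxs, hxQ, hxP⟩ := Finset.mem_filter.1 hxT
    have hx := mem_support_iff.1 hxs
    obtain ⟨G, W0, W1, hG, hcop, e0, e1⟩ := Nat.exists_coprime' (m := x 1 - Q) (n := P - x 0)
      (Nat.gcd_pos_of_pos_left _ (by omega))
    -- e0 : x 1 - Q = W0 * G, e1 : P - x 0 = W1 * G
    have hW0 : 1 ≤ W0 := by
      by_contra h0
      have : W0 = 0 := by omega
      rw [this, zero_mul] at e0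
      omega
    have hW1 : 1 ≤ W1 := by
      by_contra h0
      have : W1 = 0 := by omega
      rw [this, zero_mul] at e1
      omega
    have hslope : ∀ y, coeff y f ≠ 0 → Q < y 1 → y 0 < P → W1 * (y 1 - Q) ≤ W0 * (P - y 0) := by
      intro y hy h1 h2
      have h3 := hmin y (Finset.mem_filter.2 ⟨mem_support_iff.2 hy, h1, h2⟩)
      rw [e0, e1] at h3
      have h4 : G * (W1 * (y 1 - Q)) ≤ G * (W0 * (P - y 0)) := by
        calc G * (W1 * (y 1 - Q)) = W1 * G * (y 1 - Q) := by ring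
          _ ≤ (P - y 0) * (W0 * G) := h3
          _ = G * (W0 * (P - y 0)) := by ring
      exact Nat.le_of_mul_le_mul_left h4 hG
    have htop : ∀ y, coeff y f ≠ 0 → W0 * y 0 + W1 * y 1 ≤ W0 * P + W1 * Q := by
      intro y hy
      rcases key hL hU hy with h1 | h1
      · by_cases h2 : Q < y 1
        · have h3 := hslope y hy h2 h1
          have h4 : W0 * P = W0 * y 0 + W0 * (P - y 0) := by
            rw [← mul_add]
            congr 1
            omega
          have h5 : W1 * y 1 = W1 * Q + W1 * (y 1 - Q) := by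
            rw [← mul_add]
            congr 1
            omega
          omega
        · have h3 : W0 * y 0 ≤ W0 * P := Nat.mul_le_mul_left _ h1.le
          have h4 : W1 * y 1 ≤ W1 * Q := Nat.mul_le_mul_left _ (by omega)
          omega
      · rw [h1.1, h1.2]
    have hxtie : W0 * x 0 + W1 * x 1 = W0 * P + W1 * Q := by
      have h4 : W0 * P = W0 * x 0 + W0 * (P - x 0) := by
        rw [← mul_add]
        congr 1
        omega
      have h5 : W1 * x 1 = W1 * Q + W1 * (x 1 - Q) := by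
        rw [← mul_add]
        congr 1
        omega
      have h6 : W0 * (P - x 0) = W1 * (x 1 - Q) := by
        rw [e0, e1]
        ring
      omega
    have hlt1 : n * W1 < W0 := by
      have h1 := hslope m hm (by omega) hmP
      have h2 : W1 * (n * (P - m 0)) < W0 * (P - m 0) :=
        lt_of_lt_of_le (Nat.mul_lt_mul_of_pos_left hmQ hW1) h1
      have h3 : (n * W1) * (P - m 0) < W0 * (P - m 0) := by
        calc (n * W1) * (P - m 0) = W1 * (n * (P - m 0)) := by ring
          _ < _ := h2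
      exact lt_of_mul_lt_mul_right h3 (Nat.zero_le _)
    have hlt2 : W0 < (n + 1) * W1 := by
      have h1 := hT x hx
      have h2 : (n + 1) * x 0 + x 1 ≠ (n + 1) * P + Q := by
        intro h3
        have h4 := hone x hx h3
        rw [h4, e_one] at hxQ
        exact lt_irrefl _ hxQ
      have h4 : (n + 1) * P = (n + 1) * x 0 + (n + 1) * (P - x 0) := by
        rw [← mul_add]
        congr 1
        omega
      have h5 : x 1 - Q < (n + 1) * (P - x 0) := by omega
      rw [e0, e1, ← mul_assoc] at h5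
      exact lt_of_mul_lt_mul_right h5 (Nat.zero_le _)
    have hW12 : 2 ≤ W1 := by
      by_contra h0
      have h1 : W1 = 1 := by omega
      rw [h1] at hlt1 hlt2
      omega
    -- the differential equation
    set D : ℤ := W0 * P + W1 * Q with hD
    have hDpos : 0 < D := by positivity
    have hTop : Top (W0 : ℤ) (W1 : ℤ) D f := by
      refine ⟨?_, e P Q, hL.1, by rw [e_zero, e_one]⟩
      intro y hy
      have h1 := htop y hy
      have h2 : ((W0 * y 0 + W1 * y 1 : ℕ) : ℤ) ≤ ((W0 * P + W1 * Q : ℕ) : ℤ) := by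
        exact_mod_cast h1
      push_cast at h2
      exact h2
    have hxD : (W0 : ℤ) * (x 0 : ℤ) + (W1 : ℤ) * (x 1 : ℤ) = D := by
      have h2 : ((W0 * x 0 + W1 * x 1 : ℕ) : ℤ) = ((W0 * P + W1 * Q : ℕ) : ℤ) := by
        exact_mod_cast hxtie
      push_cast at h2
      exact h2
    have hnd : 0 < (dh (W0 : ℤ) (W1 : ℤ) D f).natDegree := by
      have h1 := Pool.Agent.W22.J6ED.dh_coeff (by exact_mod_cast hW0 : (0 : ℤ) < W0) hx hxD
      have h2 : (dh (W0 : ℤ) (W1 : ℤ) D f).coeff (x 1) ≠ 0 := by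
        rw [h1]
        exact hx
      have h3 := Polynomial.le_natDegree_of_ne_zero h2
      omega
    obtain ⟨⟨c0, hc0, hJ⟩, _⟩ := hB
    obtain ⟨φ, hφ⟩ := hDH k f g c0 hc0 hJ W0 W1 D (by exact_mod_cast hW0) (by positivity)
      hDpos hTop hnd
    have hcPQ : coeff (e P Q) (part (W0 : ℤ) (W1 : ℤ) D f) ≠ 0 := by
      rw [coeff_part, if_pos]
      · exact hL.1
      · rw [e_zero, e_one]
    have hcx : coeff x (part (W0 : ℤ) (W1 : ℤ) D f) ≠ 0 := by
      rw [coeff_part, if_pos hxD]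
      exact hx
    have hA0 : part (W0 : ℤ) (W1 : ℤ) D f ≠ 0 := by
      intro h0
      rw [h0, coeff_zero] at hcPQ
      exact hcPQ rfl
    have hhom : ∀ m, coeff m (part (W0 : ℤ) (W1 : ℤ) D f) ≠ 0 →
        (W0 : ℤ) * (m 0 : ℤ) + (W1 : ℤ) * (m 1 : ℤ) = D := by
      intro m hm
      rw [coeff_part] at hm
      by_contra hne
      exact hm (if_neg hne)
    have hmono : ∀ (r : Fin 2 →₀ ℕ) (κ : k), part (W0 : ℤ) (W1 : ℤ) D f ≠ monomial r κ := by
      intro r κ heq
      rw [heq, coeff_monomial] at hcPQ hcx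
      have h1 : r = e P Q := by
        by_contra hne
        exact hcPQ (if_neg hne)
      have h2 : r = x := by
        by_contra hne
        exact hcx (if_neg hne)
      rw [← h2, h1, e_one] at hxQ
      exact lt_irrefl _ hxQ
    rcases Nat.lt_or_ge W0 2 with hW | hW
    · have hW01 : W0 = 1 := by omega
      have hhom' : ∀ m, coeff m (part (W0 : ℤ) (W1 : ℤ) D f) ≠ 0 →
          (m 0 : ℤ) + (W1 : ℤ) * (m 1 : ℤ) = D := by
        intro m hm
        have := hhom m hm
        rw [hW01] at this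
        push_cast at this
        linarith
      have hφ' : OD D (1 + W1) (aeval ![1, Polynomial.X] (part (W0 : ℤ) (W1 : ℤ) D f)) φ := by
        have h1 := hφ
        rw [hW01] at h1 ⊢
        exact_mod_cast h1
      obtain ⟨κ, c, i, j, hκ, hA⟩ := hCL3 k (part (W0 : ℤ) (W1 : ℤ) D f) φ W1 D hW12 hDpos hA0
        hhom' hφ'
      by_cases hc : c = 0
      · refine hmono (e i j) κ ?_
        rw [hA, hc, term, C_0, zero_mul, add_zero]
        ring
      · have h1 := congrArg ev hA
        have h2 : ev (C κ * X 0 ^ i * (X 1 + C c * X 0 ^ W1) ^ j : MvPolynomial (Fin 2) k) =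
            Polynomial.C (κ * c ^ j) * Polynomial.X ^ (i + W1 * j) := by
          simp only [ev, map_mul, map_pow, map_add, aeval_X, aeval_C, Matrix.cons_val_zero,
            Matrix.cons_val_one, Polynomial.algebraMap_eq, zero_add, Polynomial.C_mul,
            Polynomial.C_pow]
          ring
        rw [h2] at h1
        have h3 := congrArg (fun P => Polynomial.coeff P (i + W1 * j)) h1
        rw [ev_coeff, Polynomial.coeff_C_mul_X_pow, if_pos rfl] at h3
        have h4 : coeff (e (i + W1 * j) 0) (part (W0 : ℤ) (W1 : ℤ) D f) ≠ 0 := by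
          rw [h3]
          exact mul_ne_zero hκ (pow_ne_zero _ hc)
        have h5 := hhom' _ h4
        rw [coeff_part] at h4
        have h6 : coeff (e (i + W1 * j) 0) f ≠ 0 := by
          intro h0
          rw [h0] at h4
          simp at h4
        have h7 := key hL hU h6
        rw [e_zero, e_one] at h5 h7
        rw [hD, hW01] at h5
        have h8 : 0 < W1 * Q := by positivity
        have h9 : ((i + W1 * j : ℕ) : ℤ) = P + (W1 * Q : ℕ) := by
          push_cast at h5 ⊢
          linarith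
        omega
    · have hφ' : OD D (W0 + W1) (aeval ![1, Polynomial.X] (part (W0 : ℤ) (W1 : ℤ) D f)) φ := hφ
      obtain ⟨r, κ, hA⟩ := hCL1 k (part (W0 : ℤ) (W1 : ℤ) D f) φ W0 W1 D hW hW12 hcop hDpos hA0
        hhom hφ'
      exact hmono r κ hA

lemma caseII [IsAlgClosed k] [CharZero k] (hDH : S_DH.{u}) (hCL2 : S_CL2.{u}) (hCL4 : S_CL4.{u})
    {P Q N : ℕ} (hN : 1 ≤ N) (hQ0 : 1 ≤ Q) {f g : MvPolynomial (Fin 2) k} (hB : Bad f g)
    (hL : Low 1 0 P Q f) (hU : Upp 1 0 P Q f) {D : ℤ} (hD : D = N * P + Q) (hT : Top N 1 D f)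
    {m : Fin 2 →₀ ℕ} (hm : coeff m f ≠ 0) (hmD : (N : ℤ) * (m 0 : ℤ) + (m 1 : ℤ) = D)
    (hne : m ≠ e P Q) :
    ∃ κ c : k, κ ≠ 0 ∧ part N 1 D f = C κ * X 1 ^ Q * (X 0 + C c * X 1 ^ N) ^ P := by
  have hmP : m 0 < P := by
    rcases key' hL hU hm with h1 | h1
    · exact h1
    · exact absurd h1 hne
  have hmQ : Q < m 1 := by
    rw [hD] at hmD
    have h1 : (N : ℤ) * (m 0 : ℤ) < N * P :=
      mul_lt_mul_of_pos_left (by exact_mod_cast hmP) (by exact_mod_cast hN)
    have h2 : (Q : ℤ) < m 1 := by linarith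
    exact_mod_cast h2
  have hDpos : 0 < D := by
    rw [hD]
    positivity
  have hmD' : (N : ℤ) * (m 0 : ℤ) + 1 * (m 1 : ℤ) = D := by
    rw [one_mul]
    exact hmD
  have hnd : 0 < (dh (N : ℤ) 1 D f).natDegree := by
    have h1 := Pool.Agent.W22.J6ED.dh_coeff (by exact_mod_cast hN : (0 : ℤ) < N) hm hmD'
    have h2 : (dh (N : ℤ) 1 D f).coeff (m 1) ≠ 0 := by
      rw [h1]
      exact hm
    have h3 := Polynomial.le_natDegree_of_ne_zero h2
    omega
  obtain ⟨⟨c0, hc0, hJ⟩, _⟩ := hB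
  obtain ⟨φ, hφ⟩ := hDH k f g c0 hc0 hJ N 1 D (by exact_mod_cast hN) (by positivity)
    hDpos hT hnd
  have hcPQ : coeff (e P Q) (part (N : ℤ) 1 D f) ≠ 0 := by
    rw [coeff_part, if_pos]
    · exact hL.1
    · rw [e_zero, e_one, hD]
      ring
  have hA0 : part (N : ℤ) 1 D f ≠ 0 := by
    intro h0
    rw [h0, coeff_zero] at hcPQ
    exact hcPQ rfl
  have hhom : ∀ m, coeff m (part (N : ℤ) 1 D f) ≠ 0 →
      (N : ℤ) * (m 0 : ℤ) + (m 1 : ℤ) = D := by
    intro m hm
    rw [coeff_part] at hm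
    by_contra hne
    refine hm (if_neg ?_)
    rw [one_mul]
    exact hne
  rcases Nat.lt_or_ge N 2 with hN2 | hN2
  · have hN1 : N = 1 := by omega
    subst hN1
    have hhom' : ∀ m, coeff m (part ((1 : ℕ) : ℤ) 1 D f) ≠ 0 →
        (m 0 : ℤ) + (m 1 : ℤ) = D := by
      intro m hm
      have := hhom m hm
      push_cast at this
      linarith
    have hφ' : OD D 2 (aeval ![1, Polynomial.X] (part ((1 : ℕ) : ℤ) 1 D f)) φ := by
      have h1 := hφ
      have h2 : (((1 : ℕ) : ℤ) + 1) = 2 := by norm_num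
      rw [h2] at h1
      exact h1
    obtain ⟨κ, a1, b1, a2, b2, i, j, hκ, hdet, hA⟩ := hCL4 k (part ((1 : ℕ) : ℤ) 1 D f) φ D hDpos
      hA0 hhom' hφ'
    by_cases h2 : a2 = 0
    · subst h2
      have ha1 : a1 ≠ 0 := by
        rintro rfl
        simp at hdet
      have hb2 : b2 ≠ 0 := by
        rintro rfl
        simp at hdet
      have hA' : part ((1 : ℕ) : ℤ) 1 D f =
          C (κ * a1 ^ i * b2 ^ j) * X 1 ^ j * (X 0 + C (b1 / a1) * X 1 ^ 1) ^ i := by
        have e1 : (C a1 * X 0 + C b1 * X 1 : MvPolynomial (Fin 2) k) =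
            C a1 * (X 0 + C (b1 / a1) * X 1 ^ 1) := by
          rw [mul_add, ← mul_assoc, ← C_mul, mul_div_cancel₀ _ ha1, pow_one]
        rw [hA, e1, C_0, zero_mul, zero_add, mul_pow, mul_pow, C_mul, C_mul, C_pow, C_pow]
        ring
      have hκ' : κ * a1 ^ i * b2 ^ j ≠ 0 :=
        mul_ne_zero (mul_ne_zero hκ (pow_ne_zero _ ha1)) (pow_ne_zero _ hb2)
      obtain ⟨hi, hj⟩ := fin_eq hL hU hκ' hD hA'
      exact ⟨_, _, hκ', by rw [hA', hi, hj]⟩
    · by_cases h1 : a1 = 0
      · subst h1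
        have hb1 : b1 ≠ 0 := by
          rintro rfl
          simp at hdet
        have hA' : part ((1 : ℕ) : ℤ) 1 D f =
            C (κ * b1 ^ i * a2 ^ j) * X 1 ^ i * (X 0 + C (b2 / a2) * X 1 ^ 1) ^ j := by
          have e1 : (C a2 * X 0 + C b2 * X 1 : MvPolynomial (Fin 2) k) =
              C a2 * (X 0 + C (b2 / a2) * X 1 ^ 1) := by
            rw [mul_add, ← mul_assoc, ← C_mul, mul_div_cancel₀ _ h2, pow_one]
          rw [hA, e1, C_0, zero_mul, zero_add, mul_pow, mul_pow, C_mul, C_mul, C_pow, C_pow]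
          ring
        have hκ' : κ * b1 ^ i * a2 ^ j ≠ 0 :=
          mul_ne_zero (mul_ne_zero hκ (pow_ne_zero _ hb1)) (pow_ne_zero _ h2)
        obtain ⟨hi, hj⟩ := fin_eq hL hU hκ' hD hA'
        exact ⟨_, _, hκ', by rw [hA', hi, hj]⟩
      · exfalso
        have e1 := congrArg ev hA
        have e2 : ev (C κ * (C a1 * X 0 + C b1 * X 1) ^ i * (C a2 * X 0 + C b2 * X 1) ^ j :
            MvPolynomial (Fin 2) k) =
            Polynomial.C (κ * a1 ^ i * a2 ^ j) * Polynomial.X ^ (i + j) := by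
          simp only [ev, map_mul, map_pow, map_add, aeval_X, aeval_C, Matrix.cons_val_zero,
            Matrix.cons_val_one, Polynomial.algebraMap_eq, mul_zero, add_zero, Polynomial.C_mul,
            Polynomial.C_pow]
          ring
        rw [e2] at e1
        have e3 := congrArg (fun P => Polynomial.coeff P (i + j)) e1
        rw [ev_coeff, Polynomial.coeff_C_mul_X_pow, if_pos rfl] at e3
        have h4 : coeff (e (i + j) 0) (part ((1 : ℕ) : ℤ) 1 D f) ≠ 0 := by
          rw [e3]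
          exact mul_ne_zero (mul_ne_zero hκ (pow_ne_zero _ h1)) (pow_ne_zero _ h2)
        have h5 := hhom' _ h4
        rw [coeff_part] at h4
        have h6 : coeff (e (i + j) 0) f ≠ 0 := by
          intro h0
          rw [h0] at h4
          simp at h4
        have h7 := key hL hU h6
        rw [e_zero, e_one] at h5 h7
        rw [hD] at h5
        push_cast at h5
        omega
  · obtain ⟨κ, c, i, j, hκ, hA⟩ := hCL2 k (part (N : ℤ) 1 D f) φ N D hN2 hDpos hA0 hhom hφ
    obtain ⟨hi, hj⟩ := fin_eq hL hU hκ hD hA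
    exact ⟨κ, c, hκ, by rw [hA, hi, hj]⟩

theorem psc : S_SIM.{u} → S_DH.{u} → S_CL1.{u} → S_CL2.{u} → S_CL3.{u} → S_CL4.{u} → S_PSA.{u} →
    S_PSC.{u} := by
  intro hSIM hDH hCL1 hCL2 hCL3 hCL4 hPSA k _ _ _ f g a b p q ha hb hab hq hqp hB hs1 hs2 hL hU
  classical
  have hall : ∀ n : ℕ, HH a b p q n k := by
    intro n
    induction n with
    | zero => exact base hSIM ha hb hab hq
    | succ n ih =>
      intro f g hB hs1 hs2 hL hU hT
      have hTn : ∀ {f : MvPolynomial (Fin 2) k},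
          Top ((n + 1 : ℕ) : ℤ) 1 (((n + 1 : ℕ) : ℤ) * (a * p) + a * q) f →
          ∀ m, coeff m f ≠ 0 → (n + 1) * m 0 + m 1 ≤ (n + 1) * (a * p) + a * q := by
        intro f hT m hm
        have h1 := hT.1 m hm
        have h2 : (((n + 1) * m 0 + m 1 : ℕ) : ℤ) ≤ (((n + 1) * (a * p) + a * q : ℕ) : ℤ) := by
          push_cast at h1 ⊢
          linarith
        exact_mod_cast h2
      by_cases hone : ∀ m, coeff m f ≠ 0 → (n + 1) * m 0 + m 1 = (n + 1) * (a * p) + a * q →
          m = e (a * p) (a * q)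
      · exact caseI hDH hCL1 hCL3 ha (by omega) hq ih hB hs1 hs2 hL hU (hTn hT) hone
      · push Not at hone
        obtain ⟨m, hm, hmD, hne⟩ := hone
        have hmD' : ((n + 1 : ℕ) : ℤ) * (m 0 : ℤ) + (m 1 : ℤ) =
            ((n + 1 : ℕ) : ℤ) * ((a : ℤ) * p) + (a : ℤ) * q := by
          have h2 : (((n + 1) * m 0 + m 1 : ℕ) : ℤ) = (((n + 1) * (a * p) + a * q : ℕ) : ℤ) := by
            rw [hmD]
          push_cast at h2 ⊢
          linarith
        obtain ⟨κ, c, hκ, hpart⟩ := caseII hDH hCL2 hCL4 (P := a * p) (Q := a * q) (N := n + 1)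
          (by omega) (Nat.mul_pos (by omega) hq) hB hL hU (by push_cast; ring) hT hm hmD' hne
        obtain ⟨f', g', hB', hs1', hs2', hL', hU', hT', hpart'⟩ := hPSA k f g a b p q (n + 1) κ c
          ha hb hab (by omega) hB hs1 hs2 hL hU (by omega) hκ hT hpart
        refine caseI hDH hCL1 hCL3 ha (by omega) hq ih hB' hs1' hs2' hL' hU' (hTn hT') ?_
        intro r hr hrD
        have hr' : coeff r (part ((n + 1 : ℕ) : ℤ) 1 (((n + 1 : ℕ) : ℤ) * ((a : ℤ) * p) +
            (a : ℤ) * q) f') ≠ 0 := by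
          rw [coeff_part, if_pos]
          · exact hr
          · have h2 : (((n + 1) * r 0 + r 1 : ℕ) : ℤ) = (((n + 1) * (a * p) + a * q : ℕ) : ℤ) := by
              rw [hrD]
            push_cast at h2 ⊢
            linarith
        rw [hpart'] at hr'
        have h3 : (C κ * X 1 ^ (a * q) * X 0 ^ (a * p) : MvPolynomial (Fin 2) k) =
            monomial (e (a * p) (a * q)) κ := by
          rw [term]
          ring
        rw [h3, coeff_monomial] at hr'
        by_contra hne
        exact hr' (if_neg (fun h => hne h.symm))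
  -- a large `n`
  refine hall (f.support.sup fun m => m 1) f g hB hs1 hs2 hL hU ⟨?_, e (a * p) (a * q), hL.1, ?_⟩
  · intro m hm
    have h1 : m 1 ≤ f.support.sup fun m => m 1 :=
      Finset.le_sup (f := fun m : Fin 2 →₀ ℕ => m 1) (mem_support_iff.2 hm)
    generalize (f.support.sup fun m => m 1) = N at *
    rcases key hL hU hm with h2 | h2
    · have h3 : N * m 0 + m 1 ≤ N * (a * p) := by
        have h4 : m 0 + 1 ≤ a * p := h2
        have h5 := Nat.mul_le_mul_left N h4
        rw [mul_add, mul_one] at h5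
        omega
      have h6 : ((N * m 0 + m 1 : ℕ) : ℤ) ≤ ((N * (a * p) : ℕ) : ℤ) := by exact_mod_cast h3
      push_cast at h6
      have h7 : (0 : ℤ) ≤ (a : ℤ) * q := by positivity
      linarith
    · have h3 : (m 0 : ℤ) = a * p := by exact_mod_cast h2.1
      have h4 : (m 1 : ℤ) = a * q := by exact_mod_cast h2.2
      rw [h3, h4, one_mul]
  · rw [e_zero, e_one]
    push_cast
    ring

end Pool.Agent.W577.J6
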